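import Pool.Agent.Run7.h244.Main
import Pool.Agent.Run7.h244.Fin

/-!
# MP_e7db20_al, Q1: a negative answer

Some group in the class `𝒫` (nondiscrete totally disconnected locally compact groups having a
maximal subgroup that is compact, open and core-free) is not `𝒮`-well-founded.
-/

set_option autoImplicit false

namespace Pool.Agent.Results.MP_e7db20_al.NotSWellFounded

open Run7.h244

/-- **There is a group in the class `𝒫` that is not `𝒮`-well-founded.** -/
theorem result : ∃ (G : Type) (_ : Group G) (_ : TopologicalSpace G),
    ClassP G ∧ ¬ SWellFounded G := by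
  obtain ⟨X, M, _, _, hX, hM, hf, ht, hmax, ⟨L⟩⟩ := Run7.h244.Mat.G2.sfin
  classical
  exact ⟨Gp L, inferInstance, inferInstance, Gp.classP hmax, not_wf⟩

end Pool.Agent.Results.MP_e7db20_al.NotSWellFounded
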